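import Pool.Agent.H28.BF.Stm
import Pool.Agent.H58.BR.Trap0

/-! Project BF (helper28), module ET (helper58): a soft inequality of Erdős and Turán. -/

set_option autoImplicit false

namespace Pool.Agent.H58.BF

open Finset Filter Topology Pool.Agent.H58.BR

theorem F_below {x : ℝ} {t : ℝ} (ht : 0 < t) (ht1 : t ≤ 1) (h : Int.fract x < t) :
    Int.fract (x - t) = Int.fract x - t + 1 ∧
      F x - F (x - t) = (t - 1) * (2 * Int.fract x - t) / 2 := by
  have h0 := Int.fract_nonneg x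
  have h2 : Int.fract (x - t) = Int.fract x - t + 1 := by
    rw [Int.fract_eq_iff]
    refine ⟨by linarith, by linarith, ⌊x⌋ - 1, ?_⟩
    rw [← Int.self_sub_floor]
    push_cast
    ring
  refine ⟨h2, ?_⟩
  unfold F
  rw [h2]
  ring

theorem F_above {x : ℝ} {t : ℝ} (ht : 0 < t) (h : t ≤ Int.fract x) :
    Int.fract (x - t) = Int.fract x - t := by
  rw [Int.fract_eq_iff]
  refine ⟨by linarith, by linarith [Int.fract_lt_one x], ⌊x⌋, ?_⟩
  rw [← Int.self_sub_floor]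
  ring

theorem up {x t : ℝ} (ht : 0 < t) (ht1 : t ≤ 1) : Int.fract x - 1 / 2 ≤ (F x - F (x - t)) / t + t / 2 := by
  rcases le_or_gt t (Int.fract x) with h | h
  · rw [F_sub_of_le ht h, mul_div_cancel_left₀ _ ht.ne']
    linarith
  · rw [(F_below ht ht1 h).2]
    have e : (t - 1) * (2 * Int.fract x - t) / 2 / t + t / 2 - (Int.fract x - 1 / 2) = (t - Int.fract x) / t := by
      field_simp
      ring
    have e2 : 0 ≤ (t - Int.fract x) / t := div_nonneg (by linarith) ht.le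
    linarith

theorem lo {x t : ℝ} (ht : 0 < t) (ht1 : t ≤ 1) : (F (x + t) - F x) / t - t / 2 ≤ Int.fract x - 1 / 2 := by
  obtain ⟨y, hy⟩ : ∃ y, y = x + t := ⟨_, rfl⟩
  have hx : x = y - t := by rw [hy]; ring
  rw [← hy, hx]
  rcases le_or_gt t (Int.fract y) with h | h
  · rw [F_sub_of_le ht h, mul_div_cancel_left₀ _ ht.ne', F_above ht h]
    linarith
  · obtain ⟨e1, e2⟩ := F_below ht ht1 h
    rw [e1, e2]
    have e : (Int.fract y - t + 1 - 1 / 2) - ((t - 1) * (2 * Int.fract y - t) / 2 / t - t / 2) =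
        Int.fract y / t := by
      field_simp
      ring
    have e3 : 0 ≤ Int.fract y / t := div_nonneg (Int.fract_nonneg y) ht.le
    linarith

/-- the exponential sum -/
noncomputable def SS (N : ℕ) (w x : ℕ → ℝ) (h : ℕ) : ℝ := ‖∑ n ∈ Ioc 0 N, (w n : ℂ) * e0 (h * x n)‖

theorem SS_le {N : ℕ} {w x : ℕ → ℝ} (hw : ∀ n, 0 ≤ w n) (h : ℕ) : SS N w x h ≤ ∑ n ∈ Ioc 0 N, w n := by
  unfold SS
  refine (norm_sum_le _ _).trans (Finset.sum_le_sum fun n _ => ?_)
  rw [norm_mul, norm_e0, mul_one, Complex.norm_real, Real.norm_eq_abs, abs_of_nonneg (hw n)]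

theorem cos_le (N : ℕ) (w x : ℕ → ℝ) (c : ℝ) (h : ℕ) :
    |∑ n ∈ Ioc 0 N, w n * Real.cos (2 * Real.pi * h * (x n + c))| ≤ SS N w x h := by
  have h1 : ∑ n ∈ Ioc 0 N, w n * Real.cos (2 * Real.pi * h * (x n + c)) =
      (e0 (h * c) * ∑ n ∈ Ioc 0 N, (w n : ℂ) * e0 (h * x n)).re := by
    rw [Finset.mul_sum, Complex.re_sum]
    refine Finset.sum_congr rfl fun n _ => ?_
    have h2 : e0 (h * c) * ((w n : ℂ) * e0 (h * x n)) = (w n : ℂ) * e0 (h * (x n + c)) := by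
      rw [mul_left_comm, ← e0_add]
      congr 2
      ring
    rw [h2, Complex.re_ofReal_mul, e0_re]
    congr 2
    ring
  rw [h1]
  refine (Complex.abs_re_le_norm _).trans ?_
  rw [norm_mul, norm_e0, one_mul]
  exact le_rfl

/-- the majorant -/
noncomputable def RR (N : ℕ) (w x : ℕ → ℝ) : ℝ :=
  ∑' h : ℕ, 1 / (2 * Real.pi ^ 2) * (1 / ((h : ℝ) + 1) ^ 2 * SS N w x (h + 1))

theorem sum_sq : Summable fun h : ℕ => 1 / ((h : ℝ) + 1) ^ 2 := by
  have h := (summable_nat_add_iff 1).2 (Real.summable_one_div_nat_pow.2 (by norm_num : 1 < 2))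
  refine h.congr fun n => ?_
  push_cast
  rfl

theorem SS_nonneg (N : ℕ) (w x : ℕ → ℝ) (h : ℕ) : 0 ≤ SS N w x h := norm_nonneg _

theorem sum_RR {N : ℕ} {w x : ℕ → ℝ} (hw : ∀ n, 0 ≤ w n) :
    Summable fun h : ℕ => 1 / (2 * Real.pi ^ 2) * (1 / ((h : ℝ) + 1) ^ 2 * SS N w x (h + 1)) := by
  refine Summable.of_nonneg_of_le (fun h => ?_) (fun h => ?_)
    ((sum_sq.mul_right (∑ n ∈ Ioc 0 N, w n)).mul_left (1 / (2 * Real.pi ^ 2)))
  · have := SS_nonneg N w x (h + 1)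
    positivity
  · have := SS_le (N := N) (x := x) hw (h + 1)
    gcongr

theorem F_sum {N : ℕ} {w x : ℕ → ℝ} (hw : ∀ n, 0 ≤ w n) (c : ℝ) :
    |∑ n ∈ Ioc 0 N, w n * F (x n + c)| ≤ RR N w x := by
  have h1 : HasSum (fun h : ℕ => ∑ n ∈ Ioc 0 N, w n * (1 / (2 * Real.pi ^ 2) * (1 / ((h : ℝ) + 1) ^ 2 *
      Real.cos (2 * Real.pi * ((h : ℝ) + 1) * (x n + c))))) (∑ n ∈ Ioc 0 N, w n * F (x n + c)) :=
    hasSum_sum fun n _ => (hasSum_F (x n + c)).mul_left (w n)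
  rw [← h1.tsum_eq, ← Real.norm_eq_abs]
  refine tsum_of_norm_bounded (sum_RR hw).hasSum fun h => ?_
  have h2 : ∑ n ∈ Ioc 0 N, w n * (1 / (2 * Real.pi ^ 2) * (1 / ((h : ℝ) + 1) ^ 2 *
      Real.cos (2 * Real.pi * ((h : ℝ) + 1) * (x n + c)))) =
      1 / (2 * Real.pi ^ 2) * (1 / ((h : ℝ) + 1) ^ 2 *
        ∑ n ∈ Ioc 0 N, w n * Real.cos (2 * Real.pi * ((h + 1 : ℕ) : ℝ) * (x n + c))) := by
    rw [Finset.mul_sum, Finset.mul_sum]
    refine Finset.sum_congr rfl fun n _ => ?_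
    push_cast
    ring
  rw [h2, norm_mul, norm_mul, Real.norm_eq_abs, Real.norm_eq_abs, Real.norm_eq_abs,
    abs_of_nonneg (by positivity : (0 : ℝ) ≤ 1 / (2 * Real.pi ^ 2)),
    abs_of_nonneg (by positivity : (0 : ℝ) ≤ 1 / ((h : ℝ) + 1) ^ 2)]
  have h3 := cos_le N w x c (h + 1)
  gcongr

theorem main {N : ℕ} {w x : ℕ → ℝ} (hw : ∀ n, 0 ≤ w n) {v t : ℝ} (hv0 : 0 ≤ v) (hv1 : v ≤ 1) (ht : 0 < t)
    (ht1 : t ≤ 1) :
    |∑ n ∈ (Ioc 0 N).filter (fun n => Int.fract (x n) < v), w n - v * ∑ n ∈ Ioc 0 N, w n| ≤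
      t * ∑ n ∈ Ioc 0 N, w n + 4 / t * RR N w x := by
  have h1 : ∑ n ∈ (Ioc 0 N).filter (fun n => Int.fract (x n) < v), w n - v * ∑ n ∈ Ioc 0 N, w n =
      ∑ n ∈ Ioc 0 N, w n * (Int.fract (x n - v) - Int.fract (x n)) := by
    rw [Finset.sum_filter, Finset.mul_sum, ← Finset.sum_sub_distrib]
    refine Finset.sum_congr rfl fun n _ => ?_
    have h2 := ind_eq (x := x n) hv0 hv1
    have h3 : (if Int.fract (x n) < v then w n else 0) =
        w n * (if Int.fract (x n) < v then (1 : ℝ) else 0) := by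
      split_ifs <;> simp
    rw [h3, h2]
    ring
  have hF : ∀ c : ℝ, |∑ n ∈ Ioc 0 N, w n * F (x n + c)| ≤ RR N w x := fun c => F_sum hw c
  have hcomb : ∀ c1 c2 c3 c4 : ℝ, ∑ n ∈ Ioc 0 N, w n * (F (x n + c1) - F (x n + c2) - F (x n + c3) + F (x n + c4)) ≤
      4 * RR N w x := by
    intro c1 c2 c3 c4
    have e : ∑ n ∈ Ioc 0 N, w n * (F (x n + c1) - F (x n + c2) - F (x n + c3) + F (x n + c4)) =
        ∑ n ∈ Ioc 0 N, w n * F (x n + c1) - ∑ n ∈ Ioc 0 N, w n * F (x n + c2) -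
        ∑ n ∈ Ioc 0 N, w n * F (x n + c3) + ∑ n ∈ Ioc 0 N, w n * F (x n + c4) := by
      rw [← Finset.sum_sub_distrib, ← Finset.sum_sub_distrib, ← Finset.sum_add_distrib]
      refine Finset.sum_congr rfl fun n _ => ?_
      ring
    rw [e]
    have a1 := abs_le.1 (hF c1)
    have a2 := abs_le.1 (hF c2)
    have a3 := abs_le.1 (hF c3)
    have a4 := abs_le.1 (hF c4)
    linarith [a1.2, a2.1, a3.1, a4.2]
  have hdiv : ∀ a : ℝ, a ≤ 4 * RR N w x → a / t ≤ 4 / t * RR N w x := by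
    intro a ha
    rw [div_mul_eq_mul_div]
    gcongr
  rw [h1, abs_le]
  constructor
  · have h2 : -(∑ n ∈ Ioc 0 N, w n * (Int.fract (x n - v) - Int.fract (x n))) ≤
        ∑ n ∈ Ioc 0 N, w n * ((F (x n + 0) - F (x n + -t) - F (x n + (-v + t)) + F (x n + -v)) / t + t) := by
      rw [← Finset.sum_neg_distrib]
      refine Finset.sum_le_sum fun n _ => ?_
      rw [← mul_neg]
      refine mul_le_mul_of_nonneg_left ?_ (hw n)
      have u := up (x := x n) ht ht1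
      have l := lo (x := x n - v) ht ht1
      have e1 : x n + 0 = x n := add_zero _
      have e2 : x n + -t = x n - t := by ring
      have e3 : x n + (-v + t) = x n - v + t := by ring
      have e4 : x n + -v = x n - v := by ring
      rw [e1, e2, e3, e4]
      have e5 : (F (x n) - F (x n - t) - F (x n - v + t) + F (x n - v)) / t =
          (F (x n) - F (x n - t)) / t - (F (x n - v + t) - F (x n - v)) / t := by ring
      rw [e5]
      linarith
    have h3 : ∑ n ∈ Ioc 0 N, w n * ((F (x n + 0) - F (x n + -t) - F (x n + (-v + t)) + F (x n + -v)) / t + t) =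
        (∑ n ∈ Ioc 0 N, w n * (F (x n + 0) - F (x n + -t) - F (x n + (-v + t)) + F (x n + -v))) / t +
          t * ∑ n ∈ Ioc 0 N, w n := by
      rw [Finset.sum_div, Finset.mul_sum, ← Finset.sum_add_distrib]
      refine Finset.sum_congr rfl fun n _ => ?_
      ring
    have h4 := hdiv _ (hcomb 0 (-t) (-v + t) (-v))
    linarith
  · have h2 : ∑ n ∈ Ioc 0 N, w n * (Int.fract (x n - v) - Int.fract (x n)) ≤
        ∑ n ∈ Ioc 0 N, w n * ((F (x n + -v) - F (x n + (-v - t)) - F (x n + t) + F (x n + 0)) / t + t) := by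
      refine Finset.sum_le_sum fun n _ => ?_
      refine mul_le_mul_of_nonneg_left ?_ (hw n)
      have u := up (x := x n - v) ht ht1
      have l := lo (x := x n) ht ht1
      have e1 : x n + 0 = x n := add_zero _
      have e3 : x n + (-v - t) = x n - v - t := by ring
      have e4 : x n + -v = x n - v := by ring
      rw [e1, e3, e4]
      have e5 : (F (x n - v) - F (x n - v - t) - F (x n + t) + F (x n)) / t =
          (F (x n - v) - F (x n - v - t)) / t - (F (x n + t) - F (x n)) / t := by ring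
      rw [e5]
      linarith
    have h3 : ∑ n ∈ Ioc 0 N, w n * ((F (x n + -v) - F (x n + (-v - t)) - F (x n + t) + F (x n + 0)) / t + t) =
        (∑ n ∈ Ioc 0 N, w n * (F (x n + -v) - F (x n + (-v - t)) - F (x n + t) + F (x n + 0))) / t +
          t * ∑ n ∈ Ioc 0 N, w n := by
      rw [Finset.sum_div, Finset.mul_sum, ← Finset.sum_add_distrib]
      refine Finset.sum_congr rfl fun n _ => ?_
      ring
    have h4 := hdiv _ (hcomb (-v) (-v - t) t 0)
    linarith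

theorem RR_le {N : ℕ} {w x : ℕ → ℝ} (hw : ∀ n, 0 ≤ w n) (H : ℕ) :
    RR N w x ≤ ∑ h ∈ Icc 1 H, SS N w x h +
      (∑' h : ℕ, 1 / (((h + H : ℕ) : ℝ) + 1) ^ 2) * ∑ n ∈ Ioc 0 N, w n := by
  have hp : 1 / (2 * Real.pi ^ 2) ≤ 1 := by
    have := Real.pi_gt_three
    rw [div_le_one (by positivity)]
    nlinarith
  have hW : 0 ≤ ∑ n ∈ Ioc 0 N, w n := Finset.sum_nonneg fun n _ => hw n
  unfold RR
  rw [← (sum_RR (N := N) (x := x) hw).sum_add_tsum_nat_add H]
  apply add_le_add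
  · have h1 : ∑ h ∈ Icc 1 H, SS N w x h = ∑ h ∈ range H, SS N w x (h + 1) := by
      rw [Finset.range_eq_Ico, Finset.sum_Ico_add' (fun h => SS N w x h) 0 H 1]
      rfl
    rw [h1]
    refine Finset.sum_le_sum fun h _ => ?_
    have h2 := SS_nonneg N w x (h + 1)
    have h3 : 1 / ((h : ℝ) + 1) ^ 2 ≤ 1 := by
      rw [div_le_one (by positivity)]
      have : (0 : ℝ) ≤ h := Nat.cast_nonneg h
      nlinarith
    calc 1 / (2 * Real.pi ^ 2) * (1 / ((h : ℝ) + 1) ^ 2 * SS N w x (h + 1)) ≤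
        1 * (1 * SS N w x (h + 1)) := by gcongr
      _ = _ := by ring
  · rw [← tsum_mul_right]
    refine Summable.tsum_le_tsum (fun h => ?_) ((summable_nat_add_iff H).2 (sum_RR hw))
      (((summable_nat_add_iff H).2 sum_sq).mul_right _)
    have h2 := SS_nonneg N w x (h + H + 1)
    have h4 := SS_le (N := N) (x := x) hw (h + H + 1)
    calc 1 / (2 * Real.pi ^ 2) * (1 / (((h + H : ℕ) : ℝ) + 1) ^ 2 * SS N w x (h + H + 1)) ≤
        1 * (1 / (((h + H : ℕ) : ℝ) + 1) ^ 2 * ∑ n ∈ Ioc 0 N, w n) := by gcongr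
      _ = _ := by ring

theorem t_ET : Pool.Agent.H28.BF.S_ET := by
  intro ε hε
  obtain ⟨t, ht⟩ : ∃ t : ℝ, t = min (ε / 2) 1 := ⟨_, rfl⟩
  have ht0 : 0 < t := by rw [ht]; exact lt_min (by linarith) one_pos
  have ht1 : t ≤ 1 := by rw [ht]; exact min_le_right _ _
  have ht2 : t ≤ ε / 2 := by rw [ht]; exact min_le_left _ _
  have hlim : Tendsto (fun H : ℕ => ∑' h : ℕ, 1 / (((h + H : ℕ) : ℝ) + 1) ^ 2) atTop (𝓝 0) :=
    tendsto_sum_nat_add fun h : ℕ => 1 / ((h : ℝ) + 1) ^ 2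
  have hev := (hlim.eventually (gt_mem_nhds (show (0 : ℝ) < t * ε / 8 by positivity))).and
    (eventually_ge_atTop 1)
  obtain ⟨H, hH, hH1⟩ := hev.exists
  refine ⟨H, 4 / t, hH1, by positivity, ?_⟩
  intro N w hw x v hv0 hv1
  have hW : 0 ≤ ∑ n ∈ Ioc 0 N, w n := Finset.sum_nonneg fun n _ => hw n
  have h1 := main (N := N) (x := x) hw hv0 hv1 ht0 ht1
  have h2 := RR_le (N := N) (x := x) hw H
  have h3 : 4 / t * RR N w x ≤ 4 / t * (∑ h ∈ Icc 1 H, SS N w x h +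
      (t * ε / 8) * ∑ n ∈ Ioc 0 N, w n) := by
    apply mul_le_mul_of_nonneg_left _ (by positivity)
    refine h2.trans ?_
    gcongr
  have h4 : 4 / t * (∑ h ∈ Icc 1 H, SS N w x h + (t * ε / 8) * ∑ n ∈ Ioc 0 N, w n) =
      4 / t * ∑ h ∈ Icc 1 H, SS N w x h + ε / 2 * ∑ n ∈ Ioc 0 N, w n := by
    field_simp
    ring
  have h5 : t * ∑ n ∈ Ioc 0 N, w n ≤ ε / 2 * ∑ n ∈ Ioc 0 N, w n := mul_le_mul_of_nonneg_right ht2 hW
  have h6 : ∑ h ∈ Icc 1 H, SS N w x h =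
      ∑ h ∈ Icc 1 H, ‖∑ n ∈ Ioc 0 N, (w n : ℂ) * Pool.Agent.H28.BF.ex (h * x n)‖ := rfl
  rw [← h6]
  linarith

end Pool.Agent.H58.BF
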